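import Mathlib

namespace Pool.Agent.Results.MP_8228af_gt.Octa

open Set MeasureTheory

abbrev E2 := EuclideanSpace ℝ (Fin 2)
abbrev E3 := EuclideanSpace ℝ (Fin 3)

noncomputable def cr (a b : E3) : E3 :=
  !₂[a 1 * b 2 - a 2 * b 1, a 2 * b 0 - a 0 * b 2, a 0 * b 1 - a 1 * b 0]

noncomputable def L (a b : E3) : E2 →ₗ[ℝ] E3 where
  toFun v := v 0 • a + v 1 • b
  map_add' v w := by simp only [PiLp.add_apply]; module
  map_smul' c v := by simp only [PiLp.smul_apply, smul_eq_mul, RingHom.id_apply]; module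

lemma normDet_L (a b : E3) : (L a b).normDet = ‖cr a b‖ := by
  rw [← sq_eq_sq₀ (L a b).normDet_nonneg (norm_nonneg _)]
  have := (L a b).normDet_sq_eq_det_gram (EuclideanSpace.basisFun (Fin 2) ℝ)
  simp only [RCLike.ofReal_real_eq_id, id] at this
  rw [this, Matrix.det_fin_two, EuclideanSpace.real_norm_sq_eq]
  simp [Matrix.gram, L, cr, PiLp.inner_apply, Fin.sum_univ_three]
  ring

def face (o a b : E3) (P : Set (ℝ × ℝ)) : Set E3 := {z | ∃ p ∈ P, z = o + p.1 • a + p.2 • b}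

lemma area (o a b : E3) (P : Set (ℝ × ℝ)) :
    μHE[2] (face o a b P) = ENNReal.ofReal ‖cr a b‖ * volume P := by
  let e : E2 ≃ᵐ ℝ × ℝ := (MeasurableEquiv.toLp 2 (Fin 2 → ℝ)).symm.trans MeasurableEquiv.finTwoArrow
  have he : MeasurePreserving e volume volume :=
    (volume_preserving_finTwoArrow ℝ).comp (PiLp.volume_preserving_ofLp (Fin 2))
  have h := (L a b).euclideanHausdorffMeasure_image_eq_normDet_mul_volume (e ⁻¹' P)
  rw [finrank_euclideanSpace_fin, normDet_L, he.measure_preimage_equiv] at h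
  rw [← h, ← (isometry_add_left o).euclideanHausdorffMeasure_image (L a b '' _)]
  congr 1
  ext z
  constructor
  · rintro ⟨p, hp, rfl⟩
    exact ⟨_, ⟨!₂[p.1, p.2], by simpa [e] using hp, rfl⟩, by simp [L, add_assoc]⟩
  · rintro ⟨_, ⟨v, hv, rfl⟩, rfl⟩
    exact ⟨e v, hv, by simp [L, e, add_assoc]⟩

lemma image_face (A : E3 ≃ᵃ[ℝ] E3) (o a b : E3) (P : Set (ℝ × ℝ)) :
    A '' face o a b P = face (A o) (A.linear a) (A.linear b) P := by
  have key : ∀ p : ℝ × ℝ, A (o + p.1 • a + p.2 • b) = A o + p.1 • A.linear a + p.2 • A.linear b := by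
    intro p
    have := A.map_vadd o (p.1 • a + p.2 • b)
    simp only [vadd_eq_add, map_add, map_smul] at this
    rw [add_assoc, add_comm, this]
    abel
  ext z
  constructor
  · rintro ⟨_, ⟨p, hp, rfl⟩, rfl⟩
    exact ⟨p, hp, key p⟩
  · rintro ⟨p, hp, rfl⟩
    exact ⟨_, ⟨p, hp, rfl⟩, key p⟩

def Sq : Set (ℝ × ℝ) := Icc 0 1 ×ˢ Icc 0 1

lemma volSq : volume Sq = 1 := by
  rw [Sq, Measure.volume_eq_prod, Measure.prod_prod]
  simp

def Hex : Set (ℝ × ℝ) := {p | 0 ≤ p.1 ∧ 0 ≤ p.2 ∧ p.1 ≤ 2 ∧ p.2 ≤ 2 ∧ 1 ≤ p.1 + p.2 ∧ p.1 + p.2 ≤ 3}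

lemma areaHex (o a b : E3) : μHE[2] (face o a b Hex) ≤ ENNReal.ofReal (3 * ‖cr a b‖) := by
  have hs : face o a b Hex ⊆ face (o + a + b) a (-b) Sq ∪ face (o + a + b) a (b - a) Sq ∪
      face (o + a + b) (a - a - b) (b - a) Sq := by
    rintro _ ⟨⟨x, y⟩, ⟨h1, h2, h3, h4, h5, h6⟩, rfl⟩
    simp only at h1 h2 h3 h4 h5 h6
    by_cases c1 : 1 ≤ x ∧ y ≤ 1
    · exact Or.inl (Or.inl ⟨(x - 1, 1 - y), ⟨⟨by linarith [c1.1], by linarith⟩,
        ⟨by linarith [c1.2], by linarith⟩⟩, by module⟩)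
    by_cases c2 : 1 ≤ y ∧ 2 ≤ x + y
    · exact Or.inl (Or.inr ⟨(x + y - 2, y - 1), ⟨⟨by linarith [c2.2], by linarith⟩,
        ⟨by linarith [c2.1], by linarith⟩⟩, by module⟩)
    · have : x ≤ 1 ∧ x + y ≤ 2 := by
        rcases not_and_or.1 c1 with c | c <;> rcases not_and_or.1 c2 with d | d <;>
          constructor <;> linarith
      exact Or.inr ⟨(2 - x - y, 1 - x), ⟨⟨by linarith [this.2], by linarith⟩,
        ⟨by linarith [this.1], by linarith⟩⟩, by module⟩
  have e1 : ‖cr a (-b)‖ = ‖cr a b‖ := by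
    rw [← norm_neg]; congr 1; ext i; fin_cases i <;> simp [cr] <;> ring
  have e2 : cr a (b - a) = cr a b := by
    ext i; fin_cases i <;> simp [cr] <;> ring
  have e3 : ‖cr (a - a - b) (b - a)‖ = ‖cr a b‖ := by
    rw [← norm_neg]; congr 1; ext i; fin_cases i <;> simp [cr] <;> ring
  refine (measure_mono hs).trans ((measure_union_le _ _).trans
    ((add_le_add_left (measure_union_le _ _) _).trans (le_of_eq ?_)))
  rw [area, area, area, volSq, e1, e2, e3, ENNReal.ofReal_mul (by norm_num)]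
  simp only [mul_one, ENNReal.ofReal_ofNat]
  ring

def Tri : Set (ℝ × ℝ) := regionBetween (fun _ => 0) (fun x => 17 / 6 - x) (Ioo 0 (17 / 6))

lemma volTri : ENNReal.ofReal 4 ≤ volume Tri := by
  rw [Tri, Measure.volume_eq_prod, volume_regionBetween_eq_integral (by simp)
    ((Continuous.integrableOn_Icc (by fun_prop)).mono_set Ioo_subset_Icc_self) measurableSet_Ioo
    (fun x hx => by simpa using hx.2.le), ← integral_Ioc_eq_integral_Ioo,
    ← intervalIntegral.integral_of_le (by norm_num)]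
  apply ENNReal.ofReal_le_ofReal
  simp only [Pi.sub_apply, sub_zero]
  rw [intervalIntegral.integral_sub (by simp) (by simp)]
  norm_num

lemma hlawka (a b c : E3) :
    ‖a + b‖ + ‖b + c‖ + ‖c + a‖ ≤ ‖a‖ + ‖b‖ + ‖c‖ + ‖a + b + c‖ := by
  have id : ‖a‖ ^ 2 + ‖b‖ ^ 2 + ‖c‖ ^ 2 + ‖a + b + c‖ ^ 2 =
      ‖a + b‖ ^ 2 + ‖b + c‖ ^ 2 + ‖c + a‖ ^ 2 := by
    simp only [EuclideanSpace.real_norm_sq_eq, Fin.sum_univ_three, PiLp.add_apply]
    ring
  have t1 := norm_add_le a b
  have t2 := norm_add_le b c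
  have t3 := norm_add_le c a
  have s1 : ‖a + b‖ ≤ ‖a + b + c‖ + ‖c‖ := by simpa using norm_sub_le (a + b + c) c
  have s2 : ‖b + c‖ ≤ ‖a + b + c‖ + ‖a‖ := by
    simpa [add_assoc] using norm_sub_le (a + b + c) a
  have s3 : ‖c + a‖ ≤ ‖a + b + c‖ + ‖b‖ := by
    have := norm_sub_le (a + b + c) b
    rwa [show a + b + c - b = c + a by abel] at this
  have := norm_nonneg a
  have := norm_nonneg b
  have := norm_nonneg c
  have := norm_nonneg (a + b + c)
  by_contra h
  push Not at h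
  have m1 := mul_nonneg (sub_nonneg.2 t1) (sub_nonneg.2 s1)
  have m2 := mul_nonneg (sub_nonneg.2 t2) (sub_nonneg.2 s2)
  have m3 := mul_nonneg (sub_nonneg.2 t3) (sub_nonneg.2 s3)
  rcases (show 0 ≤ ‖a‖ + ‖b‖ + ‖c‖ + ‖a + b + c‖ by positivity).eq_or_lt with z | z
  · linarith
  · nlinarith [mul_pos z (sub_pos.2 h)]

def σ (b : Bool) : ℝ := if b then 1 else -1

lemma exσ (x : ℝ) : ∃ b, x = σ b * |x| := by
  rcases le_total 0 x with h | h
  · exact ⟨true, by simp [σ, abs_of_nonneg h]⟩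
  · exact ⟨false, by simp [σ, abs_of_nonpos h]⟩

noncomputable def e (i : Fin 3) : E3 := EuclideanSpace.single i 1

noncomputable def F (r : ℝ) (P : Set (ℝ × ℝ)) (i : Bool × Bool × Bool) : Set E3 :=
  face ((r * σ i.2.2) • e 2) (σ i.1 • e 0 - σ i.2.2 • e 2) (σ i.2.1 • e 1 - σ i.2.2 • e 2) P

noncomputable def G (i : Fin 3 × Bool) : Set E3 :=
  face ((2 * σ i.2) • e i.1 - e (i.1 + 1)) (e (i.1 + 1) + e (i.1 + 2)) (e (i.1 + 1) - e (i.1 + 2)) Sq

def O (r : ℝ) : Set E3 := {x | |x 0| + |x 1| + |x 2| ≤ r}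

def C1 : Set E3 := {x | |x 0| + |x 1| + |x 2| ≤ 3 ∧ ∀ i, |x i| ≤ 2}

lemma closed1 : IsClosed C1 := by
  refine IsClosed.inter (s₁ := {x : E3 | |x 0| + |x 1| + |x 2| ≤ 3})
    (s₂ := {x : E3 | ∀ i, |x i| ≤ 2}) (isClosed_le (by fun_prop) continuous_const) ?_
  rw [Set.ofPred_forall]
  exact isClosed_iInter fun i => isClosed_le (by fun_prop) continuous_const

lemma fr1 : frontier C1 ⊆ (⋃ i, F 3 Hex i) ∪ ⋃ i, G i := by
  intro x hx
  rw [closed1.frontier_eq] at hx
  obtain ⟨⟨h, h'⟩, hi⟩ := hx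
  rcases h.eq_or_lt with h | h
  · obtain ⟨s, hs⟩ := exσ (x 0)
    obtain ⟨t, ht⟩ := exσ (x 1)
    obtain ⟨u, hu⟩ := exσ (x 2)
    refine Or.inl (mem_iUnion.2 ⟨(s, t, u), (|x 0|, |x 1|), ⟨abs_nonneg _, abs_nonneg _, h' 0, h' 1,
      by linarith [h' 2], by linarith [abs_nonneg (x 2)]⟩, ?_⟩)
    ext i
    fin_cases i <;> simp [e]
    · linarith
    · linarith
    · rw [show |x 2| = 3 - |x 0| - |x 1| by linarith] at hu
      linarith
  by_cases c : ∃ i, |x i| = 2
  · obtain ⟨i, c⟩ := c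
    obtain ⟨s, hs⟩ := exσ (x i)
    have hb : |x (i + 1)| + |x (i + 2)| ≤ 1 := by
      fin_cases i <;> simp at c ⊢ <;> linarith
    have b1 := le_abs_self (x (i + 1))
    have b2 := neg_abs_le (x (i + 1))
    have b3 := le_abs_self (x (i + 2))
    have b4 := neg_abs_le (x (i + 2))
    refine Or.inr (mem_iUnion.2 ⟨(i, s), ((x (i + 1) + 1 + x (i + 2)) / 2,
      (x (i + 1) + 1 - x (i + 2)) / 2), ⟨⟨by linarith, by linarith⟩, ⟨by linarith, by linarith⟩⟩, ?_⟩)
    rw [c] at hs
    ext j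
    fin_cases i <;> fin_cases j <;> simp [e] at hs ⊢ <;> linarith
  · exfalso
    push Not at c
    refine hi (mem_interior.2 ⟨{x : E3 | |x 0| + |x 1| + |x 2| < 3} ∩ ⋂ i, {x : E3 | |x i| < 2},
      fun y hy => ⟨hy.1.le, fun i => (mem_iInter.1 hy.2 i).le⟩,
      (isOpen_lt (by fun_prop) continuous_const).inter
        (isOpen_iInter_of_finite fun i => isOpen_lt (by fun_prop) continuous_const),
      h, mem_iInter.2 fun i => lt_of_le_of_ne (h' i) (c i)⟩)

def Or' (i : Bool × Bool × Bool) : Set E3 :=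
  {x | 0 < σ i.1 * x 0} ∩ {x | 0 < σ i.2.1 * x 1} ∩ {x | 0 < σ i.2.2 * x 2}

lemma closedO (r : ℝ) : IsClosed (O r) := isClosed_le (by fun_prop) continuous_const

lemma fr2 (i : Bool × Bool × Bool) : F (17 / 6) Tri i ⊆ Or' i ∩ frontier (O (17 / 6)) := by
  obtain ⟨s, t, u⟩ := i
  rintro z ⟨⟨x, y⟩, ⟨⟨h1, h2⟩, h3, h4⟩, hz⟩
  simp only at h1 h2 h3 h4
  have z0 : z 0 = σ s * x := by rw [hz]; simp [e]; ring
  have z1 : z 1 = σ t * y := by rw [hz]; simp [e]; ring
  have z2 : z 2 = σ u * (17 / 6 - x - y) := by rw [hz]; simp [e]; ring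
  have sq : ∀ b w, σ b * (σ b * w) = w := fun b w => by cases b <;> simp [σ]
  have ab : ∀ b w, 0 < w → |σ b * w| = w := fun b w hw => by
    cases b <;> simp [σ, abs_of_pos hw]
  have hs : |z 0| + |z 1| + |z 2| = 17 / 6 := by
    rw [z0, z1, z2, ab _ _ h1, ab _ _ h3, ab _ _ (by linarith)]; ring
  refine ⟨⟨⟨?_, ?_⟩, ?_⟩, ?_⟩
  · simpa [z0, sq] using h1
  · simpa [z1, sq] using h3
  · simp only [mem_ofPred_eq, z2, sq]; linarith
  rw [(closedO _).frontier_eq]
  refine ⟨hs.le, fun hi => ?_⟩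
  have hc : ContinuousAt (fun c : ℝ => c • z) 1 := by fun_prop
  have e1 : ∀ᶠ c in nhds (1 : ℝ), c • z ∈ O (17 / 6) := by
    apply hc.eventually_mem
    simpa using mem_interior_iff_mem_nhds.1 hi
  obtain ⟨c, c1, c2⟩ := ((e1.filter_mono nhdsWithin_le_nhds).and
    (self_mem_nhdsWithin (s := Set.Ioi (1 : ℝ)))).exists
  have c3 : 1 < c := c2
  simp only [O, mem_ofPred_eq, PiLp.smul_apply, smul_eq_mul, abs_mul,
    abs_of_pos (zero_lt_one.trans c3)] at c1
  nlinarith

lemma volO (r : ℝ) (hr : 0 ≤ r) :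
    volume {x : Fin 3 → ℝ | |x 0| + |x 1| + |x 2| ≤ r} = ENNReal.ofReal (4 / 3 * r ^ 3) := by
  have := volume_sum_rpow_le (Fin 3) (p := 1) le_rfl r
  simp only [Real.rpow_one, div_one, Fin.sum_univ_three, Fintype.card_fin] at this
  rw [this, ← ENNReal.ofReal_pow hr, ← ENNReal.ofReal_mul (by positivity)]
  congr 1
  have g1 : Real.Gamma (1 + 1) = 1 := by simpa using Real.Gamma_nat_eq_factorial 1
  rw [g1, Real.Gamma_nat_eq_factorial 3]
  norm_num [Nat.factorial]
  ring

lemma vol1 : ENNReal.ofReal 32 ≤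
    volume {x : Fin 3 → ℝ | |x 0| + |x 1| + |x 2| ≤ 3 ∧ ∀ i, |x i| ≤ 2} := by
  let U : Set (Fin 3 → ℝ) := {x | |x 0| + |x 1| + |x 2| ≤ 1}
  let K : Fin 3 → Set (Fin 3 → ℝ) := fun i =>
    (fun x => x + -Pi.single i 2) ⁻¹' (U ∩ {x | 0 < x i}) ∪
      (fun x => x + Pi.single i 2) ⁻¹' (U \ {x | 0 < x i})
  have hK : ∀ i, volume (K i) ≤ ENNReal.ofReal (4 / 3) := fun i => by
    refine (measure_union_le _ _).trans (le_of_eq ?_)
    rw [measure_preimage_add_right, measure_preimage_add_right, measure_inter_add_sdiff _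
      (measurableSet_lt measurable_const (measurable_pi_apply i)), volO 1 zero_le_one]
    norm_num
  have hs : {x : Fin 3 → ℝ | |x 0| + |x 1| + |x 2| ≤ 3} ⊆
      {x | |x 0| + |x 1| + |x 2| ≤ 3 ∧ ∀ i, |x i| ≤ 2} ∪ ⋃ i, K i := by
    intro x hx
    by_cases c : ∀ i, |x i| ≤ 2
    · exact Or.inl ⟨hx, c⟩
    push Not at c
    obtain ⟨i, c⟩ := c
    refine Or.inr (mem_iUnion.2 ⟨i, ?_⟩)
    have hx' : |x 0| + |x 1| + |x 2| ≤ 3 := hx
    rcases lt_abs.1 c with d | d
    · have a1 : |x i + -2| = |x i| - 2 := by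
        rw [abs_of_pos (by linarith), abs_of_pos (by linarith)]; ring
      left
      fin_cases i <;> simp [U] at a1 d ⊢ <;> constructor <;> linarith
    · have a1 : |x i + 2| = |x i| - 2 := by
        rw [abs_of_neg (by linarith), abs_of_neg (by linarith)]; ring
      right
      fin_cases i <;> simp [U] at a1 d ⊢ <;> constructor <;> linarith
  have := (measure_mono hs).trans ((measure_union_le (μ := volume) _ _).trans (add_le_add_right
    ((measure_iUnion_fintype_le _ _).trans (Finset.sum_le_sum fun i _ => hK i)) _))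
  rw [volO 3 (by norm_num)] at this
  simp only [Finset.sum_const, Finset.card_univ, Fintype.card_fin, nsmul_eq_mul] at this
  rw [show (4 / 3 * 3 ^ 3 : ℝ) = 32 + 3 * (4 / 3) by norm_num, ENNReal.ofReal_add (by norm_num)
    (by norm_num), ENNReal.ofReal_mul (by norm_num), ENNReal.ofReal_ofNat 3] at this
  exact (ENNReal.add_le_add_iff_right (by finiteness)).1 this

/-- A centrally symmetric convex body of `ℝ³` (centred at the origin). -/
def SymBody (C : Set E3) : Prop :=
  IsCompact C ∧ Convex ℝ C ∧ (interior C).Nonempty ∧ ∀ x ∈ C, -x ∈ C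

lemma cvx (r : ℝ) : Convex ℝ (O r) := by
  intro x hx y hy a b ha hb hab
  have k : ∀ i, |(a • x + b • y) i| ≤ a * |x i| + b * |y i| := fun i => by
    simpa [abs_mul, abs_of_nonneg ha, abs_of_nonneg hb] using abs_add_le (a * x i) (b * y i)
  have := mul_le_mul_of_nonneg_left (show _ ≤ r from hx) ha
  have := mul_le_mul_of_nonneg_left (show _ ≤ r from hy) hb
  have : a * r + b * r = r := by rw [← add_mul, hab, one_mul]
  change _ ≤ r
  linarith [k 0, k 1, k 2]

lemma cpt (r : ℝ) : IsCompact (O r) := by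
  refine Metric.isCompact_of_isClosed_isBounded (closedO r)
    ((Metric.isBounded_closedBall (x := 0) (r := r)).subset fun x hx => ?_)
  have h : |x 0| + |x 1| + |x 2| ≤ r := hx
  have h0 := abs_nonneg (x 0)
  have h1 := abs_nonneg (x 1)
  have h2 := abs_nonneg (x 2)
  rw [mem_closedBall_zero_iff, ← sq_le_sq₀ (norm_nonneg _) (by linarith),
    EuclideanSpace.real_norm_sq_eq, Fin.sum_univ_three, ← sq_abs (x 0), ← sq_abs (x 1),
    ← sq_abs (x 2)]
  nlinarith [mul_nonneg h0 h1, mul_nonneg h0 h2, mul_nonneg h1 h2]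

lemma int0 : (0 : E3) ∈ interior (O 1) :=
  mem_interior.2 ⟨{x : E3 | |x 0| + |x 1| + |x 2| < 1}, fun y (hy : _ < (1 : ℝ)) => show _ ≤ (1 : ℝ) from hy.le,
    isOpen_lt (by fun_prop) continuous_const, by simp⟩

theorem result : ∃ C₁ C₂ : Set (EuclideanSpace ℝ (Fin 3)), SymBody C₁ ∧ SymBody C₂ ∧
    (∀ A : EuclideanSpace ℝ (Fin 3) ≃ᵃ[ℝ] EuclideanSpace ℝ (Fin 3),
      μHE[2] (frontier (A '' C₁)) ≤ μHE[2] (frontier (A '' C₂))) ∧ volume C₂ < volume C₁ := by
  refine ⟨C1, O (17 / 6), ⟨(cpt 3).of_isClosed_subset closed1 fun x hx => hx.1, ?_,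
    ⟨0, interior_mono ?_ int0⟩, fun x hx => by simpa [C1] using hx⟩, ⟨cpt _, cvx _,
    ⟨0, interior_mono (s := O 1) (fun x (hx : _ ≤ (1 : ℝ)) =>
      show _ ≤ (17 / 6 : ℝ) from hx.trans (by norm_num)) int0⟩,
    fun x hx => by simpa [O] using hx⟩, fun A => ?_, ?_⟩
  · intro x hx y hy a b ha hb hab
    refine ⟨cvx 3 hx.1 hy.1 ha hb hab, fun i => ?_⟩
    have : |(a • x + b • y) i| ≤ a * |x i| + b * |y i| := by
      simpa [abs_mul, abs_of_nonneg ha, abs_of_nonneg hb] using abs_add_le (a * x i) (b * y i)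
    nlinarith [mul_le_mul_of_nonneg_left (hx.2 i) ha, mul_le_mul_of_nonneg_left (hy.2 i) hb]
  · intro x hx
    have h : |x 0| + |x 1| + |x 2| ≤ 1 := hx
    have h0 := abs_nonneg (x 0)
    have h1 := abs_nonneg (x 1)
    have h2 := abs_nonneg (x 2)
    refine ⟨by linarith, fun i => ?_⟩
    fin_cases i <;> simp <;> linarith
  · let H := (AffineEquiv.toContinuousAffineEquiv A).toHomeomorph
    have hf : ∀ C, frontier (A '' C) = A '' frontier C := fun C => (H.image_frontier C).symm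
    let p : Fin 3 → E3 := fun i => A.linear (e i)
    let N : Bool × Bool × Bool → ℝ := fun i =>
      ‖cr (σ i.1 • p 0 - σ i.2.2 • p 2) (σ i.2.1 • p 1 - σ i.2.2 • p 2)‖
    let M : Fin 3 × Bool → ℝ := fun i => ‖cr (p (i.1 + 1) + p (i.1 + 2)) (p (i.1 + 1) - p (i.1 + 2))‖
    have up : μHE[2] (frontier (A '' C1)) ≤
        ∑ i, ENNReal.ofReal (3 * N i) + ∑ i, ENNReal.ofReal (M i) := by
      rw [hf]
      refine (measure_mono (image_mono fr1)).trans ?_
      rw [image_union, image_iUnion, image_iUnion]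
      refine (measure_union_le _ _).trans (add_le_add
        ((measure_iUnion_fintype_le _ _).trans (Finset.sum_le_sum fun i _ => ?_))
        ((measure_iUnion_fintype_le _ _).trans (Finset.sum_le_sum fun i _ => ?_)))
      · rw [F, image_face]
        simpa only [map_sub, map_smul] using areaHex _ _ _
      · rw [G, image_face, area, volSq, mul_one, map_add, map_sub]
    have lo : ∑ i, ENNReal.ofReal (4 * N i) ≤ μHE[2] (frontier (A '' O (17 / 6))) := by
      have op : ∀ i, IsOpen (A '' Or' i) := fun i => H.isOpenMap _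
        (((isOpen_lt continuous_const (by fun_prop)).inter
          (isOpen_lt continuous_const (by fun_prop))).inter
          (isOpen_lt continuous_const (by fun_prop)))
      have := sum_measure_le_measure_univ (μ := (μHE[2] : Measure E3).restrict
        (frontier (A '' O (17 / 6)))) (s := Finset.univ) (t := fun i => A '' Or' i)
        (fun i _ => (op i).measurableSet.nullMeasurableSet) (fun i _ j _ hij => ?_)
      · rw [Measure.restrict_apply_univ] at this
        refine le_trans (Finset.sum_le_sum fun i _ => ?_) this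
        rw [Measure.restrict_apply (op i).measurableSet, hf, ← image_inter A.injective]
        refine le_trans ?_ (measure_mono (image_mono (fr2 i)))
        rw [F, image_face, area, mul_comm, ENNReal.ofReal_mul (norm_nonneg _), map_sub, map_sub,
          map_smul, map_smul, map_smul]
        exact mul_le_mul_right volTri _
      · refine Disjoint.aedisjoint (disjoint_image_of_injective A.injective
          (Set.disjoint_left.2 ?_))
        obtain ⟨s, t, u⟩ := i
        obtain ⟨s', t', u'⟩ := j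
        rintro x ⟨⟨a1, a2⟩, a3⟩ ⟨⟨b1, b2⟩, b3⟩
        have k : ∀ b b' w, 0 < σ b * w → 0 < σ b' * w → b = b' := fun b b' w h h' => by
          cases b <;> cases b' <;> simp [σ] at h h' ⊢ <;> linarith
        exact hij (by rw [k s s' _ a1 b1, k t t' _ a2 b2, k u u' _ a3 b3])
    refine up.trans (le_trans ?_ lo)
    have n0 : ∀ i, 0 ≤ N i := fun i => norm_nonneg _
    rw [← ENNReal.ofReal_sum_of_nonneg fun i _ => by linarith [n0 i],
      ← ENNReal.ofReal_sum_of_nonneg fun i _ => norm_nonneg _,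
      ← ENNReal.ofReal_sum_of_nonneg fun i _ => by linarith [n0 i],
      ← ENNReal.ofReal_add (Finset.sum_nonneg fun i _ => by linarith [n0 i])
        (Finset.sum_nonneg fun i _ => norm_nonneg _)]
    apply ENNReal.ofReal_le_ofReal
    let Q : Fin 3 → E3 := fun i => cr (p (i + 1)) (p (i + 2))
    have hN : ∀ s t u, N (s, t, u) = ‖σ s • Q 0 + σ t • Q 1 + σ u • Q 2‖ := by
      intro s t u
      have : cr (σ s • p 0 - σ u • p 2) (σ t • p 1 - σ u • p 2) =
          (σ s * σ t * σ u) • (σ s • Q 0 + σ t • Q 1 + σ u • Q 2) := by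
        ext i
        cases s <;> cases t <;> cases u <;> fin_cases i <;> simp [cr, Q, σ] <;> ring
      simp only [N]
      rw [this, norm_smul]
      cases s <;> cases t <;> cases u <;> simp [σ]
    have hM : ∀ i b, M (i, b) = ‖Q i + Q i‖ := by
      intro i b
      simp only [M]
      rw [← norm_neg]
      congr 1
      ext j
      fin_cases j <;> simp [cr, Q] <;> ring
    have h1 := hlawka (σ false • Q 0 + σ true • Q 1 + σ true • Q 2)
      (σ true • Q 0 + σ false • Q 1 + σ true • Q 2) (σ true • Q 0 + σ true • Q 1 + σ false • Q 2)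
    have st : σ true = 1 := rfl
    have sf : σ false = -1 := rfl
    have v : ∀ s t u, ‖σ (!s) • Q 0 + σ (!t) • Q 1 + σ (!u) • Q 2‖ =
        ‖σ s • Q 0 + σ t • Q 1 + σ u • Q 2‖ := by
      intro s t u
      have : ∀ b, σ (!b) = -σ b := fun b => by cases b <;> simp [σ]
      rw [← norm_neg, this, this, this]
      congr 1
      module
    have w1 := v true true true
    have w2 := v false true true
    have w3 := v true false true
    have w4 := v true true false
    rw [show σ false • Q 0 + σ true • Q 1 + σ true • Q 2 +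
        (σ true • Q 0 + σ false • Q 1 + σ true • Q 2) +
        (σ true • Q 0 + σ true • Q 1 + σ false • Q 2) =
        σ true • Q 0 + σ true • Q 1 + σ true • Q 2 by rw [st, sf]; module,
      show σ false • Q 0 + σ true • Q 1 + σ true • Q 2 +
        (σ true • Q 0 + σ false • Q 1 + σ true • Q 2) = Q 2 + Q 2 by rw [st, sf]; module,
      show σ true • Q 0 + σ false • Q 1 + σ true • Q 2 +
        (σ true • Q 0 + σ true • Q 1 + σ false • Q 2) = Q 0 + Q 0 by rw [st, sf]; module,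
      show σ true • Q 0 + σ true • Q 1 + σ false • Q 2 +
        (σ false • Q 0 + σ true • Q 1 + σ true • Q 2) = Q 1 + Q 1 by rw [st, sf]; module] at h1
    simp only [Fintype.sum_prod_type, Fintype.sum_bool, Fin.sum_univ_three, hN, hM, Bool.not_true,
      Bool.not_false] at w1 w2 w3 w4 ⊢
    have m0 := hM 0 true
    have m1 := hM 1 true
    have m2 := hM 2 true
    simp only [M] at m0 m1 m2
    linarith
  · have v1 : volume C1 = volume {x : Fin 3 → ℝ | |x 0| + |x 1| + |x 2| ≤ 3 ∧ ∀ i, |x i| ≤ 2} :=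
      ((PiLp.volume_preserving_toLp (Fin 3)).measure_preimage
        closed1.measurableSet.nullMeasurableSet).symm
    have v2 : volume (O (17 / 6)) = volume {x : Fin 3 → ℝ | |x 0| + |x 1| + |x 2| ≤ 17 / 6} :=
      ((PiLp.volume_preserving_toLp (Fin 3)).measure_preimage
        (closedO _).measurableSet.nullMeasurableSet).symm
    rw [v1, v2, volO _ (by norm_num)]
    exact lt_of_lt_of_le ((ENNReal.ofReal_lt_ofReal_iff (by norm_num)).2 (by norm_num)) vol1

end Pool.Agent.Results.MP_8228af_gt.Octa
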